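import Pool.Agent.V11185.Delta

/-!
# MP_943595_co: Hermitian plus omega times rank-one matrices in characteristic two
-/

set_option autoImplicit false

namespace Pool.Agent.Results.MP_943595_co.CharacteristicTwo

open Matrix Pool.Agent.V11185.Delta

/-- In characteristic two, if `star ω = ω + 1`, `B` and `C` are Hermitian and `C` has rank one,
then the valuations of the principal minors of `B + ω C` form a valuated Delta-matroid. -/
theorem result (K : Type) [Field K] [CharP K 2] [StarRing K] (ν : AddValuation K (WithTop ℝ))
    (hν : ∀ a, ν (star a) = ν a) (ω : K) (hω : star ω = ω + 1) (n : ℕ)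
    (B C : Matrix (Fin n) (Fin n) K) (hB : B.IsHermitian) (hC : C.IsHermitian)
    (hr : C.rank = 1) : IsValuatedDelta fun S => ν (minor (B + ω • C) S) := by
  apply main_minor ν hν
  have h2 : ∀ x : K, x + x = 0 := fun x => CharTwo.add_self_eq_zero x
  have h : B + ω • C + (B + ω • C)ᴴ = C := by
    rw [Matrix.conjTranspose_add, hB.eq, Matrix.conjTranspose_smul, hC.eq, hω]
    ext i j
    simp only [Matrix.add_apply, Matrix.smul_apply, smul_eq_mul]
    linear_combination h2 (B i j) + h2 (ω * C i j)
  rw [h]
  exact hr.le

end Pool.Agent.Results.MP_943595_co.CharacteristicTwo
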